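import Pool.Agent.J6H54.CG.Stm

/-!
# CG-29: evaluation of algebraic identities between power series
-/

set_option autoImplicit false

namespace Pool.Agent.J6H10.CG29

open Finset Pool.Agent.J6H54.CG

/-- the power series `φ` converges absolutely at `x` and has the value `a` there -/
def HasEv (x : ℝ) (φ : PowerSeries ℚ) (a : ℝ) : Prop :=
  Summable (fun n => ‖((PowerSeries.coeff n φ : ℚ) : ℝ) * x ^ n‖) ∧
    ∑' n, ((PowerSeries.coeff n φ : ℚ) : ℝ) * x ^ n = a

theorem hasEv_add {x : ℝ} {φ ψ : PowerSeries ℚ} {a b : ℝ} (h : HasEv x φ a) (h' : HasEv x ψ b) :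
    HasEv x (φ + ψ) (a + b) := by
  have e : ∀ n, ((PowerSeries.coeff n (φ + ψ) : ℚ) : ℝ) * x ^ n =
      ((PowerSeries.coeff n φ : ℚ) : ℝ) * x ^ n + ((PowerSeries.coeff n ψ : ℚ) : ℝ) * x ^ n := by
    intro n
    rw [map_add]
    push_cast
    ring
  constructor
  · refine Summable.of_nonneg_of_le (fun n => norm_nonneg _) (fun n => ?_) (h.1.add h'.1)
    rw [e]
    exact norm_add_le _ _
  · refine (tsum_congr e).trans ?_
    rw [h.1.of_norm.tsum_add h'.1.of_norm, h.2, h'.2]

theorem hasEv_mul {x : ℝ} {φ ψ : PowerSeries ℚ} {a b : ℝ} (h : HasEv x φ a) (h' : HasEv x ψ b) :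
    HasEv x (φ * ψ) (a * b) := by
  have e : ∀ n, ((PowerSeries.coeff n (φ * ψ) : ℚ) : ℝ) * x ^ n =
      ∑ kl ∈ antidiagonal n, (((PowerSeries.coeff kl.1 φ : ℚ) : ℝ) * x ^ kl.1) *
        (((PowerSeries.coeff kl.2 ψ : ℚ) : ℝ) * x ^ kl.2) := by
    intro n
    rw [PowerSeries.coeff_mul]
    push_cast
    rw [Finset.sum_mul]
    refine Finset.sum_congr rfl fun kl hkl => ?_
    rw [← mem_antidiagonal.1 hkl, pow_add]
    ring
  constructor
  · refine (summable_norm_sum_mul_antidiagonal_of_summable_norm h.1 h'.1).congr fun n => ?_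
    exact congrArg norm (e n).symm
  · refine (tsum_congr e).trans ?_
    refine (tsum_mul_tsum_eq_tsum_sum_antidiagonal_of_summable_norm h.1 h'.1).symm.trans ?_
    rw [h.2, h'.2]

theorem hasEv_poly (x : ℝ) (p : Polynomial ℚ) :
    HasEv x (p : PowerSeries ℚ) (Polynomial.aeval x p) := by
  have e : ∀ n, n ∉ range (p.natDegree + 1) →
      ((PowerSeries.coeff n (p : PowerSeries ℚ) : ℚ) : ℝ) * x ^ n = 0 := by
    intro n hn
    rw [Polynomial.coeff_coe, Polynomial.coeff_eq_zero_of_natDegree_lt (by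
      rw [mem_range] at hn; omega)]
    simp
  constructor
  · exact summable_of_ne_finset_zero (s := range (p.natDegree + 1)) (fun n hn => by
      rw [e n hn, norm_zero])
  · rw [tsum_eq_sum (s := range (p.natDegree + 1)) (fun n hn => e n hn),
      Polynomial.aeval_eq_sum_range]
    refine Finset.sum_congr rfl fun n _ => ?_
    rw [Polynomial.coeff_coe, Algebra.smul_def]
    rfl

theorem hasEv_pow {x : ℝ} {φ : PowerSeries ℚ} {a : ℝ} (h : HasEv x φ a) (n : ℕ) :
    HasEv x (φ ^ n) (a ^ n) := by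
  induction n with
  | zero =>
    have := hasEv_poly x 1
    simpa using this
  | succ n ih =>
    rw [pow_succ, pow_succ]
    exact hasEv_mul ih h

theorem hasEv_sum {x : ℝ} (s : Finset ℕ) (φ : ℕ → PowerSeries ℚ) (a : ℕ → ℝ)
    (h : ∀ i ∈ s, HasEv x (φ i) (a i)) : HasEv x (∑ i ∈ s, φ i) (∑ i ∈ s, a i) := by
  induction s using Finset.induction_on with
  | empty =>
    have := hasEv_poly x 0
    simpa using this
  | insert i s hi ih =>
    rw [Finset.sum_insert hi, Finset.sum_insert hi]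
    exact hasEv_add (h i (mem_insert_self i s)) (ih fun j hj => h j (mem_insert_of_mem hj))

theorem m29 : S_eval := by
  intro c x hx hs P hP
  have hf : HasEv x (PowerSeries.mk (fun n => ((c n : ℕ) : ℚ))) (∑' n, (c n : ℝ) * x ^ n) := by
    have e : ∀ n, ((PowerSeries.coeff n (PowerSeries.mk (fun n => ((c n : ℕ) : ℚ))) : ℚ) : ℝ) *
        x ^ n = (c n : ℝ) * x ^ n := by
      intro n
      rw [PowerSeries.coeff_mk]
      push_cast
      rfl
    constructor
    · exact hs.norm.congr fun n => congrArg norm (e n).symm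
    · exact tsum_congr e
  have h1 : HasEv x (∑ i ∈ range (P.natDegree + 1),
      Polynomial.coeToPowerSeries.ringHom (P.coeff i) *
        (PowerSeries.mk (fun n => ((c n : ℕ) : ℚ))) ^ i)
      (∑ i ∈ range (P.natDegree + 1),
        (Polynomial.aeval x (P.coeff i) : ℝ) * (∑' n, (c n : ℝ) * x ^ n) ^ i) := by
    refine hasEv_sum _ _ _ fun i _ => hasEv_mul ?_ (hasEv_pow hf i)
    exact hasEv_poly x (P.coeff i)
  rw [← Polynomial.eval₂_eq_sum_range, hP] at h1
  rw [← h1.2]
  simp

end Pool.Agent.J6H10.CG29
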